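import Pool.Agent.W763.PB.Stm

/-! # Project PB (helper763), task PB-F1 (helper311): a Banach limit exists -/

set_option autoImplicit false
open Filter Topology
open scoped BoundedContinuousFunction

namespace Pool.Agent.W311.PB

open Pool.Agent.W763.PB

/-- Cesaro means -/
noncomputable def cs (n : ℕ) (f : ℕ →ᵇ ℝ) : ℝ := (∑ i ∈ Finset.range (n + 1), f i) / ((n : ℝ) + 1)

theorem cs_bd (n : ℕ) (f : ℕ →ᵇ ℝ) : |cs n f| ≤ ‖f‖ := by
  have h0 : (0 : ℝ) < (n : ℝ) + 1 := by positivity
  unfold cs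
  rw [abs_div, abs_of_pos h0, div_le_iff₀ h0]
  refine (Finset.abs_sum_le_sum_abs _ _).trans ?_
  have h1 : ∀ i ∈ Finset.range (n + 1), |f i| ≤ ‖f‖ := fun i _ => f.norm_coe_le_norm i
  refine (Finset.sum_le_card_nsmul _ _ _ h1).trans (le_of_eq ?_)
  rw [Finset.card_range, nsmul_eq_mul]
  push_cast
  ring

theorem cs_add (n : ℕ) (f g : ℕ →ᵇ ℝ) : cs n (f + g) = cs n f + cs n g := by
  unfold cs
  simp only [BoundedContinuousFunction.coe_add, Pi.add_apply]
  rw [Finset.sum_add_distrib, add_div]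

theorem cs_smul (n : ℕ) (c : ℝ) (f : ℕ →ᵇ ℝ) : cs n (c • f) = c * cs n f := by
  unfold cs
  simp only [BoundedContinuousFunction.coe_smul, smul_eq_mul]
  rw [← Finset.mul_sum, mul_div_assoc]

theorem f1 : S_F1 := by
  obtain ⟨U, hU⟩ : ∃ U : Ultrafilter ℕ, (U : Filter ℕ) ≤ atTop :=
    ⟨Ultrafilter.of atTop, Ultrafilter.of_le atTop⟩
  have hex : ∀ f : ℕ →ᵇ ℝ, ∃ x : ℝ, |x| ≤ ‖f‖ ∧ Tendsto (fun n => cs n f) U (𝓝 x) := by
    intro f
    obtain ⟨x, hx, hx2⟩ := (isCompact_Icc (a := -‖f‖) (b := ‖f‖)).ultrafilter_le_nhds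
      (U.map (fun n => cs n f)) (by
        rw [le_principal_iff, Ultrafilter.mem_coe, Ultrafilter.mem_map]
        exact Filter.univ_mem' fun n => abs_le.1 (cs_bd n f))
    exact ⟨x, abs_le.2 hx, hx2⟩
  choose L hLb hL using hex
  have hadd : ∀ f g, L (f + g) = L f + L g := by
    intro f g
    refine tendsto_nhds_unique (hL (f + g)) ?_
    simp only [cs_add]
    exact (hL f).add (hL g)
  have hsmul : ∀ (c : ℝ) f, L (c • f) = c * L f := by
    intro c f
    refine tendsto_nhds_unique (hL (c • f)) ?_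
    simp only [cs_smul]
    exact (hL f).const_mul c
  let Λ : (ℕ →ᵇ ℝ) →ₗ[ℝ] ℝ := { toFun := L, map_add' := hadd, map_smul' := hsmul }
  refine ⟨Λ.mkContinuous 1 (fun f => by
    rw [one_mul, Real.norm_eq_abs]; exact hLb f), ?_, ?_, ?_⟩
  · intro f hf
    refine ge_of_tendsto (hL f) (Eventually.of_forall fun n => ?_)
    unfold cs
    exact div_nonneg (Finset.sum_nonneg fun i _ => hf i) (by positivity)
  · refine tendsto_nhds_unique (hL _) ?_
    refine tendsto_const_nhds.congr fun n => ?_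
    unfold cs
    have h0 : (n : ℝ) + 1 ≠ 0 := by positivity
    simp [h0]
  · intro f g hfg
    have h1 : Tendsto (fun n => cs n g - cs n f) U (𝓝 (L g - L f)) := (hL g).sub (hL f)
    have h2 : Tendsto (fun n : ℕ => cs n g - cs n f) atTop (𝓝 0) := by
      have h3 : ∀ n : ℕ, cs n g - cs n f = (f (n + 1) - f 0) / ((n : ℝ) + 1) := by
        intro n
        unfold cs
        rw [← sub_div]
        congr 1
        rw [← Finset.sum_sub_distrib]
        have h4 : ∀ i ∈ Finset.range (n + 1), g i - f i = f (i + 1) - f i := by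
          intro i _
          rw [hfg i]
        rw [Finset.sum_congr rfl h4]
        exact Finset.sum_range_sub (fun i => f i) (n + 1)
      have h5 : Tendsto (fun n : ℕ => 2 * ‖f‖ / ((n : ℝ) + 1)) atTop (𝓝 0) := by
        apply Tendsto.div_atTop tendsto_const_nhds
        exact tendsto_atTop_add_const_right _ _ tendsto_natCast_atTop_atTop
      refine squeeze_zero_norm (fun n => ?_) h5
      rw [h3, Real.norm_eq_abs, abs_div, abs_of_pos (by positivity : (0 : ℝ) < (n : ℝ) + 1)]
      apply div_le_div_of_nonneg_right _ (by positivity)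
      have h6 : |f (n + 1)| ≤ ‖f‖ := f.norm_coe_le_norm (n + 1)
      have h7 : |f 0| ≤ ‖f‖ := f.norm_coe_le_norm 0
      have h8 := abs_sub (f (n + 1)) (f 0)
      linarith
    have h9 := tendsto_nhds_unique h1 (h2.mono_left hU)
    show L g = L f
    linarith

end Pool.Agent.W311.PB
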